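import Mathlib

set_option autoImplicit false

namespace Pool.Agent.H.MP_977787_an

open MeasureTheory FourierTransform SchwartzMap Real
open scoped InnerProductSpace ENNReal

/-- the space `L²(ℝ)` -/
noncomputable abbrev H := Lp ℂ 2 (volume : Measure ℝ)

theorem key (f g : H) (L : ℝ →ₗ[ℝ] ℝ →ₗ[ℝ] ℝ) (hL : Continuous fun p : ℝ × ℝ => L p.1 p.2) (hf : MemLp f 1)
    (h : ∀ φ : 𝓢(ℝ, ℂ), ∫ x, φ x • g x = ∫ x, VectorFourier.fourierIntegral 𝐞 volume L φ x • f x) :
    g =ᵐ[volume] VectorFourier.fourierIntegral 𝐞 volume L.flip f := by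
  have i := memLp_one_iff_integrable.1 hf
  refine ae_eq_of_integral_contDiff_smul_eq ((Lp.memLp g).locallyIntegrable (by simp))
    (VectorFourier.fourierIntegral_continuous (L := L.flip) continuous_fourierChar (hL.comp continuous_swap)
      i).locallyIntegrable fun u u1 u2 => ?_
  let φ := (u2.comp_left (g := Complex.ofRealCLM) (map_zero _)).toSchwartzMap
    (Complex.ofRealCLM.contDiff.comp u1)
  exact (h φ).trans (VectorFourier.integral_fourierIntegral_smul_eq_flip continuous_fourierChar hL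
    φ.integrable i)

theorem four (f : H) (hf : MemLp f 1) : (𝓕 f : H) =ᵐ[volume] 𝓕 (f : ℝ → ℂ) := by
  have := key f (𝓕 f) (innerₗ ℝ) continuous_inner hf fun φ => by
    rw [← Lp.toTemperedDistribution_apply, ← Lp.fourier_toTemperedDistribution_eq,
      TemperedDistribution.fourier_apply, Lp.toTemperedDistribution_apply]
    rfl
  rwa [flip_innerₗ] at this

theorem bd (f g : H) (hf : MemLp f 1) (L : ℝ →ₗ[ℝ] ℝ →ₗ[ℝ] ℝ)
    (h : g =ᵐ[volume] VectorFourier.fourierIntegral 𝐞 volume L f) : eLpNorm g ∞ volume ≤ eLpNorm f 1 volume := by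
  rw [eLpNorm_exponent_top, eLpNorm_one_eq_lintegral_enorm,
    ← ofReal_integral_norm_eq_lintegral_enorm (memLp_one_iff_integrable.1 hf)]
  exact eLpNormEssSup_le_of_ae_bound (h.mono fun x e => e ▸
    VectorFourier.norm_fourierIntegral_le_integral_norm _ _ _ _ _)

theorem bdi (f : H) (hf : MemLp f 1) : eLpNorm (𝓕⁻ f : H) ∞ volume ≤ eLpNorm f 1 volume :=
  bd f _ hf _ (key f (𝓕⁻ f) (-innerₗ ℝ) continuous_inner.neg hf fun φ => by
    rw [← Lp.toTemperedDistribution_apply, ← Lp.fourierInv_toTemperedDistribution_eq,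
      TemperedDistribution.fourierInv_apply, Lp.toTemperedDistribution_apply]
    simp only [fourierInv_coe]
    rfl)

theorem qm {c : ℝ} (h : c ≠ 0) : Measure.QuasiMeasurePreserving (c * ·) (volume : Measure ℝ) volume :=
  Measure.quasiMeasurePreserving_smul volume h

theorem dil {c : ℝ} (h : c ≠ 0) (f : ℝ → ℂ) (m : AEStronglyMeasurable f volume) (p : ℝ≥0∞) (hp : p ≠ ∞) :
    eLpNorm (f ∘ (c * ·)) p volume = ENNReal.ofReal |c⁻¹| ^ (1 / p).toReal * eLpNorm f p volume := by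
  rw [← eLpNorm_map_measure (m.mono_ac (qm h).absolutelyContinuous) (by fun_prop), map_volume_mul_left h,
    eLpNorm_smul_measure_of_ne_top hp, smul_eq_mul]

theorem dm {c : ℝ} (h : c ≠ 0) {f : ℝ → ℂ} {p : ℝ≥0∞} (m : MemLp f p) : MemLp (f ∘ (c * ·)) p :=
  MemLp.comp_of_map (by rw [map_volume_mul_left h]; exact m.smul_measure ENNReal.ofReal_ne_top) (by fun_prop)

theorem exD {c : ℝ} (h : c ≠ 0) : ∃ D : H →L[ℂ] H, ∀ f, D f =ᵐ[volume] f ∘ (c * ·) := by
  have e := fun f : H => (dm h (Lp.memLp f)).coeFn_toLp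
  refine ⟨LinearMap.mkContinuous ⟨⟨fun f => (dm h (Lp.memLp f)).toLp, fun f g => Lp.ext ?_⟩,
    fun a f => Lp.ext ?_⟩ (ENNReal.ofReal |c⁻¹| ^ (1 / 2 : ℝ≥0∞).toReal).toReal fun f => ?_, e⟩
  · filter_upwards [e (f + g), e f, e g, Lp.coeFn_add (dm h (Lp.memLp f)).toLp (dm h (Lp.memLp g)).toLp,
      (qm h).ae (Lp.coeFn_add f g)] with x a b d i j
    rw [a, i, Pi.add_apply, b, d]; exact j
  · filter_upwards [e (a • f), e f, Lp.coeFn_smul a (dm h (Lp.memLp f)).toLp,
      (qm h).ae (Lp.coeFn_smul a f)] with x a b i j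
    rw [a, RingHom.id_apply, i, Pi.smul_apply, b]; exact j
  exact (Lp.norm_toLp _ (dm h (Lp.memLp f))).trans_le (by
    rw [dil h f (Lp.aestronglyMeasurable f) 2 (by simp), ENNReal.toReal_mul, Lp.norm_def])

theorem gm {b p : ℝ} (hb : 0 < b) (hp : 0 < p) :
    MemLp (fun x : ℝ => Complex.exp (-π * b * x ^ 2)) (.ofReal p) ∧
    (eLpNorm (fun x : ℝ => Complex.exp (-π * b * x ^ 2)) (.ofReal p) volume).toReal =
      (b * p) ^ (-(2 * p)⁻¹) := by
  have e : ∀ x : ℝ, ‖Complex.exp (-π * b * x ^ 2)‖ ^ p = exp (-(π * b * p) * x ^ 2) := fun x => by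
    rw [Complex.norm_exp, ← exp_mul]
    norm_cast
    ring_nf
  have p0 : ENNReal.ofReal p ≠ 0 := by simpa
  have m : MemLp (fun x : ℝ => Complex.exp (-π * b * x ^ 2)) (.ofReal p) := by
    rw [← integrable_norm_rpow_iff (by fun_prop) p0 (by simp), ENNReal.toReal_ofReal hp.le]
    simp_rw [e]
    exact integrable_exp_neg_mul_sq (by positivity)
  refine ⟨m, ?_⟩
  rw [m.eLpNorm_eq_integral_rpow_norm p0 (by simp), ENNReal.toReal_ofReal hp.le,
    ENNReal.toReal_ofReal (by positivity)]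
  simp_rw [e]
  rw [integral_gaussian, show π / (π * b * p) = (b * p)⁻¹ by field_simp, sqrt_eq_rpow,
    ← rpow_mul (by positivity), inv_rpow (by positivity), ← rpow_neg (by positivity)]
  congr 1
  field_simp

end Pool.Agent.H.MP_977787_an
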